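import Pool.Agent.helper4.GA.Spec

set_option autoImplicit false

/-! Row CHI: the windows -/

open Finset
open Pool.Agent.helper32.Cant

namespace Pool.Agent.GA

lemma CHI_nrm {M : ℕ} [NeZero M] (v : ZMod M) : nrm v = (v.valMinAbs.natAbs : ℝ) := by
  unfold nrm
  rw [Nat.cast_natAbs]
  push_cast
  rfl

lemma CHI_int {M : ℕ} [NeZero M] (d : ℤ) : nrm ((d : ZMod M)) ≤ |(d : ℝ)| := by
  rw [CHI_nrm]
  have h1 : ((d : ZMod M)).valMinAbs.natAbs ≤ d.natAbs := by
    apply ZMod.natAbs_min_of_le_div_two M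
    · rw [ZMod.coe_valMinAbs]
    · exact ZMod.natAbs_valMinAbs_le _
  have h2 : ((((d : ZMod M)).valMinAbs.natAbs : ℕ) : ℝ) ≤ ((d.natAbs : ℕ) : ℝ) := by
    exact_mod_cast h1
  rw [Nat.cast_natAbs d] at h2
  push_cast at h2
  exact h2

lemma CHI_add {M : ℕ} [NeZero M] (v w : ZMod M) : nrm (v + w) ≤ nrm v + nrm w := by
  rw [CHI_nrm, CHI_nrm, CHI_nrm]
  have h1 := ZMod.natAbs_valMinAbs_add_le v w
  have h2 := Int.natAbs_add_le v.valMinAbs w.valMinAbs
  exact_mod_cast h1.trans h2

lemma CHI_shift {M : ℕ} [NeZero M] (v : ZMod M) (d : ℤ) :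
    nrm (v + (d : ZMod M)) ≤ nrm v + |(d : ℝ)| :=
  (CHI_add v _).trans (by linarith [CHI_int (M := M) d])

lemma CHI_shift' {M : ℕ} [NeZero M] (v : ZMod M) (d : ℤ) :
    nrm v ≤ nrm (v + (d : ZMod M)) + |(d : ℝ)| := by
  have h1 := CHI_shift (v + (d : ZMod M)) (-d)
  rw [Int.cast_neg, add_neg_cancel_right, Int.cast_neg, abs_neg] at h1
  exact h1

lemma CHI_geom (q : ℝ) (h0 : 0 ≤ q) (h1 : q < 1) (n : ℕ) :
    ∑ i ∈ range n, q ^ i ≤ 1 / (1 - q) := by
  rw [le_div_iff₀ (by linarith), mul_comm, mul_neg_geom_sum]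
  linarith [pow_nonneg h0 n]

/-- **CHI**. -/
theorem CHI : CHI_stmt := by
  intro M _ ℓ hℓ
  refine ⟨fun v => ⟨Real.exp_pos _, ?_⟩, fun v d => ⟨?_, ?_⟩, ?_⟩
  · unfold chi
    rw [Real.exp_le_one_iff, neg_nonpos]
    exact div_nonneg (abs_nonneg _) hℓ.le
  · unfold chi
    rw [← Real.exp_add, Real.exp_le_exp]
    have h1 := CHI_shift v d
    have h2 : nrm (v + (d : ZMod M)) / ℓ ≤ (nrm v + |(d : ℝ)|) / ℓ :=
      div_le_div_of_nonneg_right h1 hℓ.le
    rw [add_div] at h2
    linarith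
  · unfold chi
    rw [← Real.exp_add, Real.exp_le_exp]
    have h1 := CHI_shift' v d
    have h2 : nrm v / ℓ ≤ (nrm (v + (d : ZMod M)) + |(d : ℝ)|) / ℓ :=
      div_le_div_of_nonneg_right h1 hℓ.le
    rw [add_div] at h2
    linarith
  · set q : ℝ := Real.exp (-(1 / ℓ)) with hq
    have hq0 : 0 < q := Real.exp_pos _
    have hq1 : q * (1 + ℓ) ≤ ℓ := by
      have h1 := Real.add_one_le_exp (1 / ℓ)
      have h2 : q * Real.exp (1 / ℓ) = 1 := by
        rw [hq, ← Real.exp_add]
        simp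
      have h3 : q * (1 / ℓ + 1) ≤ 1 :=
        (mul_le_mul_of_nonneg_left h1 hq0.le).trans h2.le
      have h4 : q * (1 / ℓ + 1) * ℓ ≤ 1 * ℓ := mul_le_mul_of_nonneg_right h3 hℓ.le
      have h5 : q * (1 / ℓ + 1) * ℓ = q * (1 + ℓ) := by
        field_simp
      linarith
    have hq2 : q < 1 := by
      by_contra h
      push Not at h
      nlinarith
    have hval : ∀ v : ZMod M, chi ℓ v = q ^ (v.valMinAbs.natAbs) := by
      intro v
      unfold chi
      rw [CHI_nrm, hq, ← Real.exp_nat_mul]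
      congr 1
      ring
    have hsplit : ∑ v : ZMod M, chi ℓ v =
        ∑ v ∈ (univ : Finset (ZMod M)).filter (fun v => 0 ≤ v.valMinAbs), chi ℓ v +
        ∑ v ∈ (univ : Finset (ZMod M)).filter (fun v => ¬ 0 ≤ v.valMinAbs), chi ℓ v :=
      (Finset.sum_filter_add_sum_filter_not _ _ _).symm
    have hle : ∀ v : ZMod M, v.valMinAbs.natAbs ≤ M := fun v =>
      (ZMod.natAbs_valMinAbs_le v).trans (Nat.div_le_self _ _)
    have hA : ∑ v ∈ (univ : Finset (ZMod M)).filter (fun v => 0 ≤ v.valMinAbs), chi ℓ v ≤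
        ∑ i ∈ range (M + 1), q ^ i := by
      rw [Finset.sum_congr rfl (fun v _ => hval v)]
      rw [← Finset.sum_image (f := fun i : ℕ => q ^ i)
        (g := fun v : ZMod M => v.valMinAbs.natAbs)]
      · refine Finset.sum_le_sum_of_subset_of_nonneg ?_ (fun i _ _ => pow_nonneg hq0.le i)
        intro i hi
        rw [Finset.mem_image] at hi
        obtain ⟨v, _, rfl⟩ := hi
        exact Finset.mem_range.2 (Nat.lt_succ_of_le (hle v))
      · intro v hv w hw hvw
        have hv' := (Finset.mem_filter.1 (Finset.mem_coe.1 hv)).2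
        have hw' := (Finset.mem_filter.1 (Finset.mem_coe.1 hw)).2
        apply (ZMod.valMinAbs_inj).1
        simp only at hvw
        omega
    have hB : ∑ v ∈ (univ : Finset (ZMod M)).filter (fun v => ¬ 0 ≤ v.valMinAbs), chi ℓ v ≤
        q * ∑ i ∈ range M, q ^ i := by
      rw [Finset.sum_congr rfl (fun v _ => hval v), Finset.mul_sum]
      rw [← Finset.sum_image (f := fun i : ℕ => q ^ i)
        (g := fun v : ZMod M => v.valMinAbs.natAbs)]
      · have hR : ∑ i ∈ range M, q * q ^ i = ∑ i ∈ (range M).image (fun i => i + 1), q ^ i := by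
          rw [Finset.sum_image]
          · exact Finset.sum_congr rfl (fun i _ => by rw [pow_succ, mul_comm])
          · intro a _ b _ hab
            simp only at hab
            omega
        rw [hR]
        refine Finset.sum_le_sum_of_subset_of_nonneg ?_ (fun i _ _ => pow_nonneg hq0.le i)
        intro i hi
        rw [Finset.mem_image] at hi
        obtain ⟨v, hv, rfl⟩ := hi
        have hv' := (Finset.mem_filter.1 hv).2
        rw [Finset.mem_image]
        refine ⟨v.valMinAbs.natAbs - 1, Finset.mem_range.2 ?_, ?_⟩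
        · have := hle v
          omega
        · omega
      · intro v hv w hw hvw
        have hv' := (Finset.mem_filter.1 (Finset.mem_coe.1 hv)).2
        have hw' := (Finset.mem_filter.1 (Finset.mem_coe.1 hw)).2
        apply (ZMod.valMinAbs_inj).1
        simp only at hvw
        omega
    rw [hsplit]
    have h1 := CHI_geom q hq0.le hq2 (M + 1)
    have h2 := mul_le_mul_of_nonneg_left (CHI_geom q hq0.le hq2 M) hq0.le
    have h3 : 1 / (1 - q) + q * (1 / (1 - q)) ≤ 1 + 2 * ℓ := by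
      have h4 : 1 / (1 - q) + q * (1 / (1 - q)) = (1 + q) / (1 - q) := by ring
      rw [h4, div_le_iff₀ (by linarith)]
      nlinarith
    linarith

end Pool.Agent.GA
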