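import Pool.Agent.helper4.GA.Spec

set_option autoImplicit false

/-! Row CHR: the characters of `ZMod M` -/

open Finset
open Pool.Agent.helper32.Cant

namespace Pool.Agent.GA

/-- **CHR**. -/
theorem CHR : CHR_stmt := by
  intro M _
  refine ⟨fun ξ v => ?_, fun ξ v v' => ?_, fun x d => ?_, fun ξ v => ?_⟩
  · unfold ch
    rw [ZMod.stdAddChar_apply]
    exact Circle.norm_coe _
  · unfold ch
    rw [mul_add, AddChar.map_add_eq_mul]
  · unfold ch
    rw [← Int.cast_mul, ZMod.stdAddChar_coe]
    congr 1
    push_cast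
    ring
  · unfold ch
    rw [neg_mul, AddChar.map_neg_eq_inv, ZMod.stdAddChar_apply, ← Circle.coe_inv_eq_conj,
      Circle.coe_inv]

end Pool.Agent.GA
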